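import Pool.Agent.H2.SxE

open Pool.Agent.H2.Sx

namespace Pool.Agent.Results.MP_8d13c5_an.NotLind

/-- A simplex with the affine Baire extension property whose extreme boundary is not Lindelöf. -/
theorem result :
    ∃ (E : Type) (_ : AddCommGroup E) (_ : Module ℝ E) (_ : TopologicalSpace E)
      (_ : IsTopologicalAddGroup E) (_ : ContinuousSMul ℝ E) (_ : LocallyConvexSpace ℝ E)
      (_ : T2Space E) (X : Set E),
      IsCompact X ∧ Convex ℝ X ∧ IsSimplex X ∧ HasABE X ∧
        ¬ LindelofSpace (X.extremePoints ℝ) :=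
  ⟨JJ ℝ → ℝ, inferInstance, inferInstance, inferInstance, inferInstance, inferInstance,
    inferInstance, inferInstance, XX ℝ, isCompact_XX, convex_XX, simplex_XX, abe_XX,
    fun h => not_lindelof_XX (isLindelof_iff_lindelofSpace.2 h)⟩

end Pool.Agent.Results.MP_8d13c5_an.NotLind
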